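import Mathlib

/-!
Weakly Lindelof, productively weakly Lindelof and weakly Alster spaces.
Every dense subspace of a product of spaces with a countable pi-base is productively weakly
Lindelof.
-/

set_option autoImplicit false

open Set Filter Topology

universe u v w

namespace Pool.Agent.Lib.MP_b47357_gt

/-- `X` is weakly Lindelof: every open cover has a countable subfamily with dense union. -/
def WeaklyLindelof (X : Type u) [TopologicalSpace X] : Prop :=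
  ∀ 𝒰 : Set (Set X), (∀ U ∈ 𝒰, IsOpen U) → ⋃₀ 𝒰 = univ →
    ∃ 𝒱 : Set (Set X), 𝒱 ⊆ 𝒰 ∧ 𝒱.Countable ∧ Dense (⋃₀ 𝒱)

/-- `X` is productively weakly Lindelof: `X × Y` is weakly Lindelof for every weakly Lindelof
space `Y` (of the universe `v`). -/
def ProductivelyWeaklyLindelof (X : Type u) [TopologicalSpace X] : Prop :=
  ∀ (Y : Type v) [TopologicalSpace Y], WeaklyLindelof Y → WeaklyLindelof (X × Y)

/-- `X` is weakly Alster: every family of G-delta sets which does not contain `X` and such that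
every compact set lies inside one of its members has a countable subfamily with dense union. -/
def WeaklyAlster (X : Type u) [TopologicalSpace X] : Prop :=
  ∀ 𝒰 : Set (Set X), (∀ U ∈ 𝒰, IsGδ U) → univ ∉ 𝒰 →
    (∀ C : Set X, IsCompact C → ∃ U ∈ 𝒰, C ⊆ U) →
    ∃ 𝒱 : Set (Set X), 𝒱 ⊆ 𝒰 ∧ 𝒱.Countable ∧ Dense (⋃₀ 𝒱)

/-- `X` has a countable pi-base: countably many nonempty open sets such that every nonempty open
set contains one of them. -/
def CountablePiBase (X : Type u) [TopologicalSpace X] : Prop :=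
  ∃ 𝓑 : Set (Set X), 𝓑.Countable ∧ (∀ B ∈ 𝓑, IsOpen B ∧ B.Nonempty) ∧
    ∀ U : Set X, IsOpen U → U.Nonempty → ∃ B ∈ 𝓑, B ⊆ U

section

variable {I : Type u} {X : I → Type w} [∀ i, TopologicalSpace (X i)] {Z : Set (∀ i, X i)}
  {Y : Type v} [TopologicalSpace Y]

theorem exists_box {O : Set (Z × Y)} (hO : IsOpen O) {z : Z} {y : Y} (h : (z, y) ∈ O) :
    ∃ (e : Finset I) (u : ∀ i, Set (X i)) (V : Set Y), (∀ i ∈ e, IsOpen (u i) ∧ z.1 i ∈ u i) ∧
      IsOpen V ∧ y ∈ V ∧ ∀ z' : Z, (∀ i ∈ e, z'.1 i ∈ u i) → ∀ y' ∈ V, (z', y') ∈ O := by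
  obtain ⟨A, V, hA, hV, hzA, hyV, hAV⟩ := isOpen_prod_iff.1 hO z y h
  obtain ⟨A', hA', rfl⟩ := isOpen_induced_iff.1 hA
  obtain ⟨e, u, hu, hsub⟩ := isOpen_pi_iff.1 hA' z.1 hzA
  exact ⟨e, u, V, hu, hV, hyV, fun z' hz' y' hy' => hAV ⟨hsub fun i hi => hz' i hi, hy'⟩⟩

theorem exists_mem_box (hZ : Dense Z) (x : ∀ i, X i) (t e : Finset I) (d u : ∀ i, Set (X i))
    (hd : ∀ i ∈ t, IsOpen (d i) ∧ x i ∈ d i) (hu : ∀ i ∈ e, IsOpen (u i) ∧ x i ∈ u i) :
    ∃ z : Z, (∀ i ∈ t, z.1 i ∈ d i) ∧ ∀ i ∈ e, z.1 i ∈ u i := by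
  obtain ⟨z, ⟨h1, h2⟩, hz⟩ := hZ.inter_open_nonempty (Set.pi (t : Set I) d ∩ Set.pi (e : Set I) u)
    ((isOpen_set_pi t.finite_toSet fun i hi => (hd i hi).1).inter
      (isOpen_set_pi e.finite_toSet fun i hi => (hu i hi).1))
    ⟨x, fun i hi => (hd i hi).2, fun i hi => (hu i hi).2⟩
  exact ⟨⟨z, hz⟩, fun i hi => h1 i hi, fun i hi => h2 i hi⟩

open Classical in
theorem step_zero (hZ : Dense Z) (x₀ : ∀ i, X i) (hY : WeaklyLindelof Y)
    (𝒲 : Set (Set (Z × Y))) (hopen : ∀ W ∈ 𝒲, IsOpen W) (hcov : ⋃₀ 𝒲 = univ)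
    (s : Finset I) (c : ∀ i, Set (X i)) (hc : ∀ i ∈ s, IsOpen (c i) ∧ (c i).Nonempty) :
    ∃ 𝒮 : Set (Set (Z × Y)), 𝒮 ⊆ 𝒲 ∧ 𝒮.Countable ∧ ∃ J : Set I, J.Countable ∧
      ∀ (t : Finset I) (d : ∀ i, Set (X i)), (∀ i ∈ t, IsOpen (d i) ∧ (d i).Nonempty) →
        (∀ i ∈ s, d i = c i) → (∀ i ∈ t \ s, i ∉ J) → ∀ B : Set Y, IsOpen B → B.Nonempty →
          ∃ z : Z, ∃ y ∈ B, (∀ i ∈ t, z.1 i ∈ d i) ∧ (z, y) ∈ ⋃₀ 𝒮 := by
  obtain ⟨z, hz, -⟩ := exists_mem_box hZ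
    (fun i => if h : i ∈ s then (hc i h).2.some else x₀ i) s ∅ c c
    (fun i hi => ⟨(hc i hi).1, by simpa [hi] using (hc i hi).2.some_mem⟩) (by simp)
  let P : Set Y → Set (Z × Y) × Finset I → Prop := fun V p => p.1 ∈ 𝒲 ∧
    ∃ u : ∀ i, Set (X i), (∀ i ∈ p.2, IsOpen (u i) ∧ z.1 i ∈ u i) ∧
      ∀ z' : Z, (∀ i ∈ p.2, z'.1 i ∈ u i) → ∀ y' ∈ V, (z', y') ∈ p.1
  obtain ⟨𝒱, h𝒱, hcnt, hd⟩ := hY {V | IsOpen V ∧ ∃ p, P V p} (fun V hV => hV.1) (by
    refine eq_univ_of_forall fun y => ?_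
    have hmem : (z, y) ∈ ⋃₀ 𝒲 := hcov ▸ mem_univ _
    obtain ⟨W, hW, hin⟩ := hmem
    obtain ⟨e, u, V, h1, h2, h3, h4⟩ := exists_box (hopen W hW) hin
    exact ⟨V, ⟨h2, (W, e), hW, u, h1, h4⟩, h3⟩)
  have hex : ∀ V ∈ 𝒱, ∃ p, P V p := fun V hV => (h𝒱 hV).2
  choose! T hT using hex
  refine ⟨(fun V => (T V).1) '' 𝒱, ?_, hcnt.image _, ⋃ V ∈ 𝒱, ((T V).2 : Set I),
    hcnt.biUnion fun V _ => (T V).2.finite_toSet.countable, ?_⟩
  · rintro _ ⟨V, hV, rfl⟩
    exact (hT V hV).1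
  · intro t d hdt hds hJ B hB hne
    obtain ⟨y', hyB, V, hV, hyV⟩ := hd.inter_open_nonempty B hB hne
    obtain ⟨u, hu, hsub⟩ := (hT V hV).2
    obtain ⟨z', h1, h2⟩ := exists_mem_box hZ
      (fun i => if h : i ∈ t \ s then (hdt i (Finset.mem_sdiff.1 h).1).2.some else z.1 i)
      t (T V).2 d u
      (fun i hi => ⟨(hdt i hi).1, by
        by_cases h : i ∈ t \ s
        · rw [dif_pos h]
          exact (hdt i hi).2.some_mem
        · have his : i ∈ s := by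
            by_contra h'
            exact h (Finset.mem_sdiff.2 ⟨hi, h'⟩)
          rw [dif_neg h, hds i his]
          exact hz i his⟩)
      (fun i hi => ⟨(hu i hi).1, by
        have h : i ∉ t \ s := fun h => hJ i h (mem_biUnion hV hi)
        rw [dif_neg h]
        exact (hu i hi).2⟩)
    exact ⟨z', y', hyB, h1, (T V).1, ⟨V, hV, rfl⟩, hsub z' h2 y' hyV⟩

/-- Every dense subspace of a product of spaces with a countable pi-base is productively weakly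
Lindelof. -/
theorem dense_productive (hX : ∀ i, CountablePiBase (X i)) (hZ : Dense Z) :
    ProductivelyWeaklyLindelof.{max u w, v} Z := by
  classical
  intro Y _ hY 𝒲 hopen hcov
  rcases isEmpty_or_nonempty Z with hE | ⟨⟨x₀, -⟩⟩
  · exact ⟨∅, empty_subset _, countable_empty, fun p => (hE.false p.1).elim⟩
  choose 𝓑 h𝓑c h𝓑o h𝓑b using hX
  have key : ∀ (n : ℕ) (s : Finset I) (c : ∀ i, Set (X i)), (∀ i ∈ s, c i ∈ 𝓑 i) →
      ∃ 𝒮 : Set (Set (Z × Y)), 𝒮 ⊆ 𝒲 ∧ 𝒮.Countable ∧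
        ∀ (t : Finset I) (d : ∀ i, Set (X i)), s ⊆ t → (∀ i ∈ t, d i ∈ 𝓑 i) →
          (∀ i ∈ s, d i = c i) → (t \ s).card ≤ n → ∀ B : Set Y, IsOpen B → B.Nonempty →
            ∃ z : Z, ∃ y ∈ B, (∀ i ∈ t, z.1 i ∈ d i) ∧ (z, y) ∈ ⋃₀ 𝒮 := by
    intro n
    induction n with
    | zero =>
      intro s c hc
      obtain ⟨𝒮, h1, h2, J, -, h3⟩ := step_zero hZ x₀ hY 𝒲 hopen hcov s c
        fun i hi => h𝓑o i _ (hc i hi)
      refine ⟨𝒮, h1, h2, fun t d _ hd hds hcard => h3 t d (fun i hi => h𝓑o i _ (hd i hi)) hds ?_⟩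
      rw [Finset.card_eq_zero.1 (Nat.le_zero.1 hcard)]
      simp
    | succ n ih =>
      intro s c hc
      obtain ⟨𝒮, h1, h2, J, hJ, h3⟩ := step_zero hZ x₀ hY 𝒲 hopen hcov s c
        fun i hi => h𝓑o i _ (hc i hi)
      have hval : ∀ (j : I) (b : Set (X j)), b ∈ 𝓑 j →
          ∀ i ∈ insert j s, Function.update c j b i ∈ 𝓑 i := by
        intro j b hb i hi
        by_cases hij : i = j
        · subst hij
          simpa using hb
        · rw [Function.update_of_ne hij]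
          exact hc i ((Finset.mem_insert.1 hi).resolve_left hij)
      choose T hT1 hT2 hT3 using fun (j : I) (b : Set (X j)) (hb : b ∈ 𝓑 j) =>
        ih (insert j s) (Function.update c j b) (hval j b hb)
      refine ⟨𝒮 ∪ ⋃ j ∈ J, ⋃ b, ⋃ hb : b ∈ 𝓑 j, T j b hb, ?_, ?_, ?_⟩
      · exact union_subset h1 (iUnion₂_subset fun j _ => iUnion₂_subset fun b hb => hT1 j b hb)
      · exact h2.union (hJ.biUnion fun j _ => (h𝓑c j).biUnion fun b hb => hT2 j b hb)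
      · intro t d hst hd hds hcard B hB hne
        by_cases hex : ∃ j ∈ t \ s, j ∈ J
        · obtain ⟨j, hj, hjJ⟩ := hex
          obtain ⟨hjt, hjs⟩ := Finset.mem_sdiff.1 hj
          obtain ⟨z, y, hy, h4, W, hW, h5⟩ := hT3 j (d j) (hd j hjt) t d
            (Finset.insert_subset hjt hst) hd
            (fun i hi => by
              by_cases hij : i = j
              · subst hij
                simp
              · rw [Function.update_of_ne hij]
                exact hds i ((Finset.mem_insert.1 hi).resolve_left hij))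
            (by
              rw [Finset.sdiff_insert, Finset.card_erase_of_mem hj]
              omega) B hB hne
          exact ⟨z, y, hy, h4, W, Or.inr (mem_biUnion hjJ
            (mem_iUnion₂.2 ⟨d j, hd j hjt, hW⟩)), h5⟩
        · obtain ⟨z, y, hy, h4, W, hW, h5⟩ := h3 t d (fun i hi => h𝓑o i _ (hd i hi)) hds
            (fun i hi hiJ => hex ⟨i, hi, hiJ⟩) B hB hne
          exact ⟨z, y, hy, h4, W, Or.inl hW, h5⟩
  choose S hS1 hS2 hS3 using fun n => key n ∅ (fun _ => univ) (by simp)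
  refine ⟨⋃ n, S n, iUnion_subset hS1, countable_iUnion hS2, ?_⟩
  rw [dense_iff_inter_open]
  rintro O hO ⟨⟨z, y⟩, hzy⟩
  obtain ⟨e, u, V, h1, h2, h3, h4⟩ := exists_box hO hzy
  have hd : ∀ i, ∃ b : Set (X i), i ∈ e → b ∈ 𝓑 i ∧ b ⊆ u i := by
    intro i
    by_cases hi : i ∈ e
    · obtain ⟨b, hb, hbu⟩ := h𝓑b i (u i) (h1 i hi).1 ⟨_, (h1 i hi).2⟩
      exact ⟨b, fun _ => ⟨hb, hbu⟩⟩
    · exact ⟨univ, fun h => (hi h).elim⟩
  choose d hd using hd
  obtain ⟨z', y', hy', h5, W, hW, h6⟩ := hS3 e.card e d (Finset.empty_subset _)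
    (fun i hi => (hd i hi).1) (by simp) (by simp) V h2 ⟨y, h3⟩
  exact ⟨(z', y'), h4 z' (fun i hi => (hd i hi).2 (h5 i hi)) y' hy', W, mem_iUnion.2 ⟨_, hW⟩, h6⟩

end

theorem countablePiBase_of_secondCountable (X : Type u) [TopologicalSpace X]
    [SecondCountableTopology X] : CountablePiBase X := by
  refine ⟨TopologicalSpace.countableBasis X, TopologicalSpace.countable_countableBasis X,
    fun B hB => ⟨TopologicalSpace.isOpen_of_mem_countableBasis hB,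
      TopologicalSpace.nonempty_of_mem_countableBasis hB⟩, ?_⟩
  rintro U hU ⟨x, hx⟩
  obtain ⟨B, hB, -, hBU⟩ := (TopologicalSpace.isBasis_countableBasis X).exists_subset_of_mem_open hx hU
  exact ⟨B, hB, hBU⟩

end Pool.Agent.Lib.MP_b47357_gt
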